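import Pool.Agent.Lib.MP_e81270_lc_Space.Final

/-!
# MP_e81270_lc: an exponential lower bound for Extended Frege in polynomial space

For every `K` there are `c C > 0` (for `C ≥ K + 9`) with `c C → 1` as `C → ∞` such that for every
`C ≥ K + 9` and all large `n`, with `w = C * ⌈log₂ n⌉` and `m = 2 * n * 2 ^ w ≤ n ^ (C + 2)`, all
but a fraction `2 ^ (-n)` of the CNFs with `m` clauses of width `w` in `n` variables are
unsatisfiable and have the property that every Extended Frege refutation (with arbitrary semantic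
inferences) in space `n ^ K`, that is with at most `n ^ K` symbols in memory at each time, has at
least `2 ^ (c C * n)` steps.  The definitions are in `Pool/Agent/Lib/MP_e81270_lc_Space/Defs.lean`.
-/

namespace Pool.Agent.Results.MP_e81270_lc.BoundedSpace

open Filter Topology Pool.Agent.MP_e81270_lc.Space

theorem result (K : ℕ) : ∃ c : ℕ → ℝ, (∀ C ≥ K + 9, 0 < c C) ∧ Tendsto c atTop (𝓝 1) ∧
    ∀ C ≥ K + 9, ∃ n₀ : ℕ, ∀ n ≥ n₀, ∀ w m : ℕ,
      w = C * Nat.clog 2 n → m = 2 * n * 2 ^ w →
      w ≤ n ∧ m ≤ n ^ (C + 2) ∧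
      (Nat.card {F : Fin m → Clause n w //
        ¬ (Unsat F ∧ ∀ L M, IsRefutation F (n ^ K) L M → (2 : ℝ) ^ (c C * n) ≤ L)} : ℝ) ≤
          (1 / 2) ^ n * Nat.card (Fin m → Clause n w) :=
  final K

end Pool.Agent.Results.MP_e81270_lc.BoundedSpace
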