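import Pool.Agent.Lib.MP_e81270_lc_Gap.Lower
import Pool.Agent.Lib.MP_e81270_lc_Gap.Invar
import Pool.Agent.Lib.MP_e81270_lc_Gap.Upper

/-!
# The complexity gap of symmetric Extended Frege

Let `Ψ` be a first-order sentence over a countable relational language, and let `translation Ψ n`
be the propositional formula which says that the variables describe a model of `Ψ` on the set
`{0, ..., n - 1}`.

1. If `Ψ` has an infinite model, then there is `q₀` such that for every set `Q` of `q ≥ q₀` of the
   `n` elements and every Extended Frege refutation of `translation Ψ n`, of any depth and size: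
   * some line or subformula of a line has, after unfolding the extension variables, at least
     `2 ^ (4 q / 5)` images under the permutations of `Q`;
   * if the refutation is invariant under the permutations of `Q`, its size is at least
     `2 ^ (4 q / 5)`.
2. Otherwise, for all large `n` there are refutations of `translation Ψ n` of polynomial size and
   bounded depth, without extension variables, which are invariant under all permutations of the
   `n` elements.
-/

set_option autoImplicit false

namespace Pool.Agent.Results.MP_e81270_lc.ComplexityGap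

open FirstOrder Pool.Agent.Lib.MP_e81270_lc_Gap

theorem result (L : FirstOrder.Language.{0, 0}) [L.IsRelational] [Countable L.Symbols]
    (Ψ : L.Sentence) :
    ((∃ (M : Type) (_ : L.Structure M), Infinite M ∧ M ⊨ Ψ) →
      ∃ q₀ : ℕ, ∀ (n : ℕ) (Q : Finset (Fin n)), q₀ ≤ Q.card →
        ∀ (m : ℕ) (D : Fin m → Fm (Atom L n ⊕ Fin m)) (P : List (List (Fm (Atom L n ⊕ Fin m)))),
        IsRefutation (translation Ψ n) D P →
          (∀ (T : ℕ) (E : Fin m → Fm (Atom L n)), (∀ i, E i = subst E (D i)) →
            Symmetric Q T E P → 2 ^ (4 * Q.card) ≤ T ^ 5) ∧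
          (Acyclic D → Invariant Q D P →
            2 ^ (4 * Q.card) ≤ (totalSize P + ∑ i, (D i).size) ^ 5)) ∧
    ((¬ ∃ (M : Type) (_ : L.Structure M), Infinite M ∧ M ⊨ Ψ) →
      ∃ K : ℕ, ∀ n ≥ K, ∃ P : List (List (Fm (Atom L n ⊕ Fin 0))),
        IsRefutation (translation Ψ n) Fin.elim0 P ∧ totalSize P ≤ n ^ K ∧
        (∀ Γ ∈ P, ∀ A ∈ Γ, A.depth ≤ K) ∧ Invariant Finset.univ Fin.elim0 P) := by
  refine ⟨?_, upper Ψ⟩
  rintro ⟨M, S, hM, hΨ⟩
  obtain ⟨q₀, h⟩ := lower Ψ M hΨ
  refine ⟨q₀, fun n Q hQ m D P hP => ⟨fun T E hE hS => h n Q hQ m T D E P hP hE hS,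
    fun hD hI => ?_⟩⟩
  obtain ⟨E, hE⟩ := exists_unfold hD
  exact h n Q hQ m _ D E P hP hE (symmetric_of_invariant hD hE hI)

end Pool.Agent.Results.MP_e81270_lc.ComplexityGap
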