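import Pool.Agent.Lib.MP_e81270_lc_Aff.Main

/-!
# Extended resolution with few extension variables

For every `δ > 0` there are unsatisfiable formulas of polynomial size in `N` variables that have
no short extended resolution refutation in which at most `(3 - δ) N` extension variables are used
in the definitions of others.  The connectives are arbitrary; exclusive or is allowed.  Clauses
and formulas are defined in `Pool.Agent.Lib.MP_e81270_lc.Defs`, the other definitions are in
`Pool.Agent.Lib.MP_e81270_lc_Aff.System`.
-/

set_option autoImplicit false

namespace Pool.Agent.Results.MP_e81270_lc.FewExtensionVariables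

open Pool.Agent.MP_e81270_lc Pool.Agent.MP_e81270_lc.Aff

/-- Let `δ > 0` and `C` be real numbers.  For some `c > 0`, some `K` and all large `N` there is an
unsatisfiable formula `F` in `N` variables, with at most `N ^ K` clauses of at most `K log N`
literals each, such that the following holds for every refutation of `F` with `k` extension
variables and `L` lines.  Let the extension variables in `I` be defined from the variables in `J`,
let those in `B` be defined by arbitrary functions of at most two arguments, let all those outside
`I` be arbitrary functions of at most `max 2 t` variables and extension variables in `I` or `B`,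
where `1 ≤ t ≤ C log N`, and let all those in `B` that are not in `X` be exclusive ors.  If
`3 |J| + |B| ≤ (3 - δ) N` or `|J| + |X| ≤ (1 - δ) N`, then
`L ≥ exp (c N ^ 2 / (t ^ 2 (N + k - |I|)))`. -/
theorem result : ∀ δ C : ℝ, 0 < δ → ∃ c : ℝ, 0 < c ∧ ∃ K N₀ : ℕ, ∀ N ≥ N₀,
    ∃ F : CNF (Fin N), Unsat F ∧ F.length ≤ N ^ K ∧
      (∀ D ∈ F, (D.length : ℝ) ≤ K * Real.log N) ∧
      ∀ (k L t : ℕ) (R : Aff.Refutation F k L) (J : Finset (Fin N)) (I B X : Finset (Fin k)),
        1 ≤ t → (t : ℝ) ≤ C * Real.log N → R.defs.Split J I B t →
        (∀ i ∈ B, i ∉ X → R.defs.IsXor i) →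
        ((3 * J.card + B.card : ℕ) : ℝ) ≤ (3 - δ) * N ∨
          ((J.card + X.card : ℕ) : ℝ) ≤ (1 - δ) * N →
        Real.exp (c * N ^ 2 / (t ^ 2 * (N + (Finset.univ \ I).card : ℝ))) ≤ L :=
  main

end Pool.Agent.Results.MP_e81270_lc.FewExtensionVariables
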