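import Pool.Agent.Lib.MP_e81270_lc_Mod.Final

/-!
# Symmetric Extended Frege with counting gates modulo `m`

Lower bounds for Extended Frege refutations, of any depth, with counting gates modulo any number
`m`, which are symmetric under the permutations of a set `Q` of `q` elements (`2 m ≤ q`).

1. A general theorem: let `Ψ` be a first-order sentence which has a finite model with `N ≥ n`
   elements, where `m ^ k` divides `N - n` for some `k` with `q ≤ 2 ^ k`. Then the formula which
   says that `Ψ` has a model with `n` elements needs exponential size `2 ^ (2 q / 3)`.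
2. The pigeonhole principle: the permutations are those of `q` holes; the number of pigeons is
   arbitrary.
3. The counting principle modulo `r`, if `gcd (r, m ^ k)` divides `n` for all `k`, for example if
   `r` and `m` are coprime.
-/

set_option autoImplicit false

namespace Pool.Agent.Results.MP_e81270_lc.ModularCounting

open FirstOrder Pool.Agent.Lib.MP_e81270_lc_Mod

theorem result :
    (∀ w : ℕ, ∃ q₀ : ℕ, ∀ (L : FirstOrder.Language.{0, 0}) [L.IsRelational] (Ψ : L.Sentence),
      wd Ψ ≤ w → ∀ (m n k : ℕ) (Q : Finset (Fin n)), 0 < m → 2 * m ≤ Q.card → q₀ ≤ Q.card →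
      Q.card ≤ 2 ^ k →
      (∃ (M : Type) (_ : L.Structure M), Finite M ∧ M ⊨ Ψ ∧ n ≤ Nat.card M ∧
        m ^ k ∣ Nat.card M - n) → Hard Q (translation m Ψ n)) ∧
    (∃ q₀ : ℕ, ∀ (m N n : ℕ) (Q : Finset (Fin n)), 0 < m → 2 * m ≤ Q.card → q₀ ≤ Q.card →
      Hard Q (translation m (pigeonhole N) n)) ∧
    ∀ r : ℕ, 0 < r → ∃ q₀ : ℕ, ∀ (m n : ℕ) (Q : Finset (Fin n)), 0 < m → 2 * m ≤ Q.card →
      q₀ ≤ Q.card → (∀ k, Nat.gcd r (m ^ k) ∣ n) → Hard Q (translation m (counting r) n) :=
  ⟨hard_of_model, hard_pigeonhole, hard_counting⟩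

end Pool.Agent.Results.MP_e81270_lc.ModularCounting
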