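import Pool.Agent.Lib.SL.Final

/-!
# Short lines force long or deep proofs, for every sound proof system

There are unsatisfiable CNFs `F` in `N` variables with at most `N ^ ((2 + γ) c)` clauses such that
every refutation of `F` whose lines are Boolean functions with circuits of `N ^ c` gates (or from a
given family of `2 ^ (N ^ c)` functions), each implied by at most two earlier lines and `N ^ c`
clauses of `F`, with `S` lines and at most `D` inferences from two earlier lines on a path,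
satisfies `(D + N) log₂ (S + 1) ≥ γ² N² / 400000`.
-/

namespace Pool.Agent.Results.MP_e81270_lc.ShortLines

open Pool.Agent.SL

theorem result (γ : ℝ) (hγ : 0 < γ) (hγ1 : γ ≤ 1) (c : ℕ) (hc : 96 ≤ γ * c) :
    ∃ K ℓ₀ : ℕ, 0 < K ∧
      ∀ ℓ n b N : ℕ, ℓ₀ ≤ ℓ → n = 2 ^ ℓ → b = K * ℓ → N = n * b →
      ∀ V : Finset ((Fin n × Fin b → Bool) → Bool), V.card ≤ 2 ^ (N ^ c) →
        ∃ F : Finset (Clause (Fin n × Fin b)),
          (∀ x, ∃ C ∈ F, ¬ Holds C x) ∧ (F.card : ℝ) ≤ (N : ℝ) ^ ((2 + γ) * c) ∧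
          (∀ C ∈ F, C.card ≤ 2 * b) ∧
          ∀ S D : ℕ,
            Refutation F (fun f => f ∈ V ∨ HasCircuit (N ^ c) f) (N ^ c) S D →
              γ ^ 2 * (N : ℝ) ^ 2 / 400000 ≤ ((D : ℝ) + N) * Real.logb 2 ((S : ℝ) + 1) := by
  obtain ⟨K, ℓ₀, hK, h⟩ := final γ hγ hγ1 c hc
  refine ⟨K, ℓ₀, hK, ?_⟩
  intro ℓ n b N hℓ hn hb hN V hV
  obtain ⟨F, h1, h2, h3, h4⟩ := h ℓ n b N hℓ hn hb hN V hV
  exact ⟨F, h1, h2, h3, fun S D P => h4 S D ⟨P⟩⟩

end Pool.Agent.Results.MP_e81270_lc.ShortLines
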